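import Mathlib
import Pool.Agent.Y685.SY.Stm2
import Pool.Agent.Y739.SY.Comp

/-!
Project SY, job SY2-COMP2: comparison of mean defects under a coordinate change (helper564).
Adapted from `Pool/Agent/Y739/SY/Comp.lean`.
-/

set_option autoImplicit false
set_option maxSynthPendingDepth 3

open scoped Manifold ContDiff Topology ENNReal
open MeasureTheory Set Metric

namespace Pool.Agent.Y564.SY

open Pool.Agent.Y685.SY
open Pool.Agent.Y739.SY (unif consts inv_fderiv)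

section

variable {E : Type} [NormedAddCommGroup E] [InnerProductSpace ℝ E] [FiniteDimensional ℝ E]

/-- homogeneity of the defect -/
theorem defect_hom (c : ℝ) (b : E →L[ℝ] E →L[ℝ] ℝ) (Q : E →L[ℝ] E) (u : E) :
    ENNReal.ofReal (c * ‖u‖ ^ 2 - b u (Q u)) ≤ ENNReal.ofReal (‖u‖ ^ 2) * defect c b Q := by
  by_cases hu : u = 0
  · rw [hu]
    simp
  · have hn : 0 < ‖u‖ := norm_pos_iff.2 hu
    have h1 : ‖(‖u‖⁻¹ : ℝ) • u‖ = 1 := by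
      rw [norm_smul, norm_inv, norm_norm]
      exact inv_mul_cancel₀ hn.ne'
    have h2 : ENNReal.ofReal (c - b ((‖u‖⁻¹ : ℝ) • u) (Q ((‖u‖⁻¹ : ℝ) • u))) ≤ defect c b Q := by
      unfold defect
      exact le_iSup₂_of_le ((‖u‖⁻¹ : ℝ) • u) h1 le_rfl
    have h3 : c * ‖u‖ ^ 2 - b u (Q u) =
        ‖u‖ ^ 2 * (c - b ((‖u‖⁻¹ : ℝ) • u) (Q ((‖u‖⁻¹ : ℝ) • u))) := by
      simp only [map_smul, smul_apply, smul_eq_mul]
      field_simp
    rw [h3, ENNReal.ofReal_mul (by positivity)]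
    exact mul_le_mul_right h2 _

/-- the pointwise bound -/
theorem pointwise2 {F G Fz Gz Q : E →L[ℝ] E} {θ1 θ2 : E →L[ℝ] E →L[ℝ] ℝ} {c0 s c : ℝ}
    (hc0 : 1 ≤ c0) (hF : ‖F‖ ≤ c0) (hG : ‖G‖ ≤ c0) (hGz : ‖Gz‖ ≤ c0)
    (hGG : ‖Gz - G‖ ≤ c0 * s) (hs : 0 ≤ s) (hFG : ∀ u, F (G u) = u) (hGF : ∀ u, G (F u) = u)
    (hFGz : ∀ u, Fz (Gz u) = u) (hθ : ∀ u w, θ1 u w = θ2 (Fz u) (Fz w)) (hc : 0 ≤ c) :
    defect (c / (2 * c0 ^ 5)) θ2 (F.comp (Q.comp G)) ≤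
      ENNReal.ofReal (2 * c0 ^ 4) * (defect c θ1 Q + ENNReal.ofReal (‖Q‖ * s) * ‖θ1‖ₑ) := by
  have hc00 : 0 < c0 := by linarith
  unfold defect
  refine iSup₂_le fun a ha => ?_
  have e1 : θ2 a ((F.comp (Q.comp G)) a) = θ1 (G a) (Q (G a)) +
      (θ1 ((Gz - G) a) (Gz (F (Q (G a)))) + θ1 (G a) ((Gz - G) (F (Q (G a))))) := by
    have h1 : θ2 a (F (Q (G a))) = θ1 (Gz a) (Gz (F (Q (G a)))) := by
      rw [hθ, hFGz, hFGz]
    simp only [ContinuousLinearMap.comp_apply]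
    rw [h1]
    simp only [sub_apply, map_sub, hGF]
    abel
  have hGa : ‖G a‖ ≤ c0 := by
    calc ‖G a‖ ≤ ‖G‖ * ‖a‖ := G.le_opNorm a
      _ ≤ c0 := by rw [ha, mul_one]; exact hG
  have hGa2 : 1 ≤ c0 * ‖G a‖ := by
    calc (1 : ℝ) = ‖F (G a)‖ := by rw [hFG, ha]
      _ ≤ ‖F‖ * ‖G a‖ := F.le_opNorm _
      _ ≤ c0 * ‖G a‖ := by gcongr
  have hQGa : ‖Q (G a)‖ ≤ ‖Q‖ * c0 := (Q.le_opNorm _).trans (by gcongr)
  have hFQGa : ‖F (Q (G a))‖ ≤ c0 * (‖Q‖ * c0) := (F.le_opNorm _).trans (by gcongr)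
  have e2 : |θ1 ((Gz - G) a) (Gz (F (Q (G a))))| ≤ ‖θ1‖ * (c0 * s) * (c0 * (c0 * (‖Q‖ * c0))) := by
    rw [← Real.norm_eq_abs]
    calc ‖θ1 ((Gz - G) a) (Gz (F (Q (G a))))‖ ≤ ‖θ1‖ * ‖(Gz - G) a‖ * ‖Gz (F (Q (G a)))‖ :=
          θ1.le_opNorm₂ _ _
      _ ≤ ‖θ1‖ * (c0 * s) * (c0 * (c0 * (‖Q‖ * c0))) := by
        have g1 : ‖(Gz - G) a‖ ≤ c0 * s := by
          calc ‖(Gz - G) a‖ ≤ ‖Gz - G‖ * ‖a‖ := (Gz - G).le_opNorm a
            _ ≤ c0 * s := by rw [ha, mul_one]; exact hGG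
        have g2 : ‖Gz (F (Q (G a)))‖ ≤ c0 * (c0 * (‖Q‖ * c0)) := (Gz.le_opNorm _).trans (by gcongr)
        gcongr
  have e3 : |θ1 (G a) ((Gz - G) (F (Q (G a))))| ≤ ‖θ1‖ * c0 * ((c0 * s) * (c0 * (‖Q‖ * c0))) := by
    rw [← Real.norm_eq_abs]
    calc ‖θ1 (G a) ((Gz - G) (F (Q (G a))))‖ ≤ ‖θ1‖ * ‖G a‖ * ‖(Gz - G) (F (Q (G a)))‖ :=
          θ1.le_opNorm₂ _ _
      _ ≤ ‖θ1‖ * c0 * ((c0 * s) * (c0 * (‖Q‖ * c0))) := by
        have g2 : ‖(Gz - G) (F (Q (G a)))‖ ≤ (c0 * s) * (c0 * (‖Q‖ * c0)) :=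
          ((Gz - G).le_opNorm _).trans (by gcongr)
        gcongr
  have e4 : c / (2 * c0 ^ 5) ≤ c * ‖G a‖ ^ 2 := by
    have h1 : 1 ≤ 2 * c0 ^ 5 * ‖G a‖ ^ 2 := by
      have h2 : 1 ≤ (c0 * ‖G a‖) ^ 2 := one_le_pow₀ hGa2
      have h3 : 1 ≤ c0 ^ 3 := one_le_pow₀ hc0
      have h4 : 2 * c0 ^ 5 * ‖G a‖ ^ 2 = 2 * (c0 ^ 3 * (c0 * ‖G a‖) ^ 2) := by ring
      rw [h4]
      nlinarith
    rw [div_le_iff₀ (by positivity)]
    calc c = c * 1 := (mul_one c).symm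
      _ ≤ c * (2 * c0 ^ 5 * ‖G a‖ ^ 2) := by gcongr
      _ = c * ‖G a‖ ^ 2 * (2 * c0 ^ 5) := by ring
  have e5 : c / (2 * c0 ^ 5) - θ2 a ((F.comp (Q.comp G)) a) ≤
      (c * ‖G a‖ ^ 2 - θ1 (G a) (Q (G a))) + 2 * c0 ^ 4 * ((‖Q‖ * s) * ‖θ1‖) := by
    rw [e1]
    have h1 := (abs_le.1 e2).1
    have h2 := (abs_le.1 e3).1
    have h3 : 2 * c0 ^ 4 * ((‖Q‖ * s) * ‖θ1‖) = ‖θ1‖ * (c0 * s) * (c0 * (c0 * (‖Q‖ * c0))) +
        ‖θ1‖ * c0 * ((c0 * s) * (c0 * (‖Q‖ * c0))) := by ring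
    rw [h3]
    linarith
  have h5 : ENNReal.ofReal (‖G a‖ ^ 2) ≤ ENNReal.ofReal (2 * c0 ^ 4) := by
    refine ENNReal.ofReal_le_ofReal ?_
    have h6 : ‖G a‖ ^ 2 ≤ c0 ^ 2 := by gcongr
    have h7 : 1 ≤ c0 ^ 2 := one_le_pow₀ hc0
    nlinarith
  calc ENNReal.ofReal (c / (2 * c0 ^ 5) - θ2 a ((F.comp (Q.comp G)) a))
      ≤ ENNReal.ofReal ((c * ‖G a‖ ^ 2 - θ1 (G a) (Q (G a))) +
          2 * c0 ^ 4 * ((‖Q‖ * s) * ‖θ1‖)) := ENNReal.ofReal_le_ofReal e5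
    _ ≤ ENNReal.ofReal (c * ‖G a‖ ^ 2 - θ1 (G a) (Q (G a))) +
          ENNReal.ofReal (2 * c0 ^ 4 * ((‖Q‖ * s) * ‖θ1‖)) := ENNReal.ofReal_add_le
    _ ≤ ENNReal.ofReal (‖G a‖ ^ 2) * defect c θ1 Q +
          ENNReal.ofReal (2 * c0 ^ 4) * (ENNReal.ofReal (‖Q‖ * s) * ‖θ1‖ₑ) := by
        refine add_le_add (defect_hom c θ1 Q (G a)) ?_
        rw [ENNReal.ofReal_mul (by positivity), ENNReal.ofReal_mul (p := ‖Q‖ * s) (by positivity),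
          ofReal_norm]
    _ ≤ ENNReal.ofReal (2 * c0 ^ 4) * defect c θ1 Q +
          ENNReal.ofReal (2 * c0 ^ 4) * (ENNReal.ofReal (‖Q‖ * s) * ‖θ1‖ₑ) := by gcongr
    _ = ENNReal.ofReal (2 * c0 ^ 4) * (defect c θ1 Q + ENNReal.ofReal (‖Q‖ * s) * ‖θ1‖ₑ) := by
        rw [mul_add]

end

variable (E : Type) [NormedAddCommGroup E] [InnerProductSpace ℝ E] [FiniteDimensional ℝ E]
  [MeasurableSpace E] [BorelSpace E]

theorem t_COMP2 : S_COMP2 E := by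
  intro f g U V hU hV hf hg hfU hgV hgf hfg K hKU hK
  obtain ⟨ε, hε, c0, hc0, hcon⟩ := consts hU hV hf hg hfU hKU hK
  have hc00 : 0 < c0 := by linarith
  have hC1 : 1 ≤ 2 * c0 ^ 5 := by
    have := one_le_pow₀ (n := 5) hc0
    linarith
  refine ⟨c0, hc0, 2 * c0 ^ 5, hC1, fun L' hL' => ?_⟩
  have hL0 : 0 < L' := by linarith
  refine ⟨ε / L', by positivity, fun θ₁ θ₂ hθm hθ r hr hrδ x hx Q c hc => ?_⟩
  have hLr : L' * r < ε := by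
    rw [lt_div_iff₀ hL0] at hrδ
    linarith
  have hrε : r < ε := by nlinarith
  obtain ⟨hc1, hc2⟩ := hcon x hx
  have hxU := hKU hx
  have hWo : IsOpen (U ∩ f ⁻¹' ball (f x) r) := hf.continuousOn.isOpen_inter_preimage hU isOpen_ball
  have hinj : InjOn f (U ∩ f ⁻¹' ball (f x) r) := by
    intro a ha b hb hab
    rw [← hgf a ha.1, ← hgf b hb.1, hab]
  have himg : f '' (U ∩ f ⁻¹' ball (f x) r) = ball (f x) r := by
    apply Subset.antisymm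
    · rintro _ ⟨z, hz, rfl⟩
      exact hz.2
    · intro y hy
      have hyV : y ∈ V := (hc2 y (ball_subset_ball hrε.le hy)).1
      refine ⟨g y, ⟨hgV hyV, ?_⟩, hfg y hyV⟩
      rw [mem_preimage, hfg y hyV]
      exact hy
  have hWb : U ∩ f ⁻¹' ball (f x) r ⊆ ball x (L' * r) := by
    rintro z ⟨hz1, hz2⟩
    have h1 := (hc2 (f z) (ball_subset_ball hrε.le hz2)).2
    rw [hgf z hz1, hgf x hxU] at h1
    rw [mem_preimage, mem_ball] at hz2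
    rw [mem_ball]
    calc dist z x ≤ c0 * dist (f z) (f x) := h1
      _ < c0 * r := by gcongr
      _ ≤ L' * r := by gcongr
  have hbU : ball x (L' * r) ⊆ U := fun z hz => (hc1 z (ball_subset_ball hLr.le hz)).1
  have hder : ∀ z ∈ U ∩ f ⁻¹' ball (f x) r,
      HasFDerivWithinAt f (fderiv ℝ f z) (U ∩ f ⁻¹' ball (f x) r) z := fun z hz =>
    ((hf.contDiffAt (hU.mem_nhds hz.1)).differentiableAt (by simp)).hasFDerivAt.hasFDerivWithinAt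
  have key := lintegral_image_eq_lintegral_abs_det_fderiv_mul (volume : Measure E)
    hWo.measurableSet hder hinj
    (fun y => defect (c / (2 * c0 ^ 5)) (θ₂ y)
      ((fderiv ℝ f x).comp (Q.comp (fderiv ℝ g (f x)))))
  rw [himg] at key
  rw [key]
  have hθb : AEMeasurable (fun z => ENNReal.ofReal (‖Q‖ * (L' * r)) * ‖θ₁ z‖ₑ)
      (volume.restrict (ball x (L' * r))) :=
    ((hθm.mono_set hbU).enorm).const_mul _
  calc ∫⁻ z in U ∩ f ⁻¹' ball (f x) r, ENNReal.ofReal |(fderiv ℝ f z).det| *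
        defect (c / (2 * c0 ^ 5)) (θ₂ (f z)) ((fderiv ℝ f x).comp (Q.comp (fderiv ℝ g (f x))))
      ≤ ∫⁻ z in U ∩ f ⁻¹' ball (f x) r, ENNReal.ofReal (2 * c0 ^ 5) *
        (defect c (θ₁ z) Q + ENNReal.ofReal (‖Q‖ * (L' * r)) * ‖θ₁ z‖ₑ) := by
        refine setLIntegral_mono' hWo.measurableSet fun z hz => ?_
        have hzb := hWb hz
        obtain ⟨a1, a2, a3, a4, a5, a6⟩ := hc1 z (ball_subset_ball hLr.le hzb)
        obtain ⟨-, b2, b3, -⟩ := hc1 x (mem_ball_self hε)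
        have hzd : dist z x ≤ L' * r := (mem_ball.1 hzb).le
        have hFGz : ∀ u, fderiv ℝ f z (fderiv ℝ g (f z) u) = u := by
          intro u
          have h := inv_fderiv hV hU hg hf hgV hfg (f z) (hfU hz.1) u
          rwa [hgf z hz.1] at h
        have hFG : ∀ u, fderiv ℝ f x (fderiv ℝ g (f x) u) = u := by
          intro u
          have h := inv_fderiv hV hU hg hf hgV hfg (f x) (hfU hxU) u
          rwa [hgf x hxU] at h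
        have hGF : ∀ u, fderiv ℝ g (f x) (fderiv ℝ f x u) = u :=
          inv_fderiv hU hV hf hg hfU hgf x hxU
        have hp := pointwise2 (F := fderiv ℝ f x) (G := fderiv ℝ g (f x)) (Fz := fderiv ℝ f z)
          (Gz := fderiv ℝ g (f z)) (Q := Q) (θ1 := θ₁ z) (θ2 := θ₂ (f z)) (c0 := c0)
          (s := L' * r) (c := c) hc0 b2 b3 a3 (a6.trans (by gcongr)) (by positivity) hFG hGF hFGz
          (hθ z hz.1) hc
        have hd : ENNReal.ofReal |(fderiv ℝ f z).det| ≤ ENNReal.ofReal c0 :=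
          ENNReal.ofReal_le_ofReal a4
        calc ENNReal.ofReal |(fderiv ℝ f z).det| * defect (c / (2 * c0 ^ 5)) (θ₂ (f z))
              ((fderiv ℝ f x).comp (Q.comp (fderiv ℝ g (f x))))
            ≤ ENNReal.ofReal c0 * (ENNReal.ofReal (2 * c0 ^ 4) *
              (defect c (θ₁ z) Q + ENNReal.ofReal (‖Q‖ * (L' * r)) * ‖θ₁ z‖ₑ)) := by gcongr
          _ = ENNReal.ofReal (2 * c0 ^ 5) *
              (defect c (θ₁ z) Q + ENNReal.ofReal (‖Q‖ * (L' * r)) * ‖θ₁ z‖ₑ) := by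
            rw [← mul_assoc, ← ENNReal.ofReal_mul hc00.le]
            congr 2
            ring
    _ ≤ ∫⁻ z in ball x (L' * r), ENNReal.ofReal (2 * c0 ^ 5) *
        (defect c (θ₁ z) Q + ENNReal.ofReal (‖Q‖ * (L' * r)) * ‖θ₁ z‖ₑ) :=
        lintegral_mono_set hWb
    _ = ENNReal.ofReal (2 * c0 ^ 5) * ((∫⁻ z in ball x (L' * r), defect c (θ₁ z) Q)
            + ENNReal.ofReal (‖Q‖ * (L' * r)) * ∫⁻ z in ball x (L' * r), ‖θ₁ z‖ₑ) := by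
        rw [lintegral_const_mul' _ _ ENNReal.ofReal_ne_top, lintegral_add_right' _ hθb,
          lintegral_const_mul' _ _ ENNReal.ofReal_ne_top]

end Pool.Agent.Y564.SY
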